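import Pool.Agent.H1.DiC

namespace Pool.Agent.Results.MP_0d4af9_co.Exponent

open Finset Filter Asymptotics Pool.Agent.H1

variable {n : ℕ}

/-- A weighted digraph on `Fin n` is a matrix `w ≥ 0`; its arcs are the pairs of positive weight. -/
def Arc (w : Fin n → Fin n → ℝ) (a b : Fin n) : Prop := 0 < w a b

/-- `w` is an acyclic weighted digraph whose longest directed path has `ν` vertices. -/
def Adm (ν : ℕ) (w : Fin n → Fin n → ℝ) : Prop :=
  (∀ u v, 0 ≤ w u v) ∧ (∀ v, ¬ Relation.TransGen (Arc w) v v) ∧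
    IsGreatest {k | ∃ l : List (Fin n), l.Nodup ∧ l.IsChain (Arc w) ∧ l.length = k} ν

/-- The maximum weight of a dicut. -/
noncomputable def mac (w : Fin n → Fin n → ℝ) : ℝ :=
  sSup {x | ∃ X : Finset (Fin n), x = ∑ u ∈ X, ∑ v ∈ Xᶜ, w u v}

noncomputable def c (ν : ℕ) : ℝ :=
  sInf {r | ∃ (n : ℕ) (w : Fin n → Fin n → ℝ), Adm ν w ∧ r = mac w / ∑ u, ∑ v, w u v}

noncomputable def alphaU : ℝ :=
  sInf {α : ℝ | (fun ν : ℕ => c ν - 1 / 4) =O[atTop] fun ν : ℕ => (ν : ℝ) ^ α}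

noncomputable def alphaL : ℝ :=
  sSup {α : ℝ | (fun ν : ℕ => (ν : ℝ) ^ α) =O[atTop] fun ν : ℕ => c ν - 1 / 4}

lemma tot_pos {ν : ℕ} {w : Fin n → Fin n → ℝ} (h : Adm ν w) (h2 : 2 ≤ ν) : 0 < ∑ u, ∑ v, w u v := by
  obtain ⟨l, -, a, rfl⟩ := h.2.2.1
  match l, a, h2 with
  | x :: y :: l, a, _ =>
    have : 0 < w x y := (List.isChain_cons_cons.1 a).1
    exact sum_pos' (fun u _ => sum_nonneg fun v _ => h.1 u v)
      ⟨x, mem_univ _, sum_pos' (fun v _ => h.1 x v) ⟨y, mem_univ _, this⟩⟩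

lemma low {ν : ℕ} {w : Fin n → Fin n → ℝ} (h : Adm ν w) (h2 : 2 ≤ ν) (t : ℝ) (ht : 1 ≤ t)
    (h3 : t ^ 3 = ν) : 1 / 4 + 1 / 256 / t ^ 2 ≤ mac w / ∑ u, ∑ v, w u v := by
  let S := fun v => {k | ∃ l : List (Fin n), (v :: l).IsChain (Arc w) ∧ l.length = k}
  have b : ∀ v, ∀ k ∈ S v, k < ν := by
    rintro v _ ⟨l, a, rfl⟩
    have p := (a.imp (S := Relation.TransGen (Arc w)) fun _ _ => .single).pairwise
    have nd : (v :: l).Nodup :=
      List.Pairwise.imp (fun {x y} r (e : x = y) => by subst e; exact h.2.1 _ r) p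
    exact h.2.2.2 ⟨v :: l, nd, a, rfl⟩
  have bd : ∀ v, BddAbove (S v) := fun v => ⟨ν, fun k hk => (b v k hk).le⟩
  have m : ∀ v, sSup (S v) ∈ S v := fun v => Nat.sSup_mem ⟨0, [], by simp, rfl⟩ (bd v)
  obtain ⟨X, hX⟩ := DiC.lower ν t ht h3 w h.1 (fun v => sSup (S v)) (fun u v e => by
    obtain ⟨l, a, e'⟩ := m v
    exact le_csSup (bd u) ⟨v :: l, List.isChain_cons_cons.2 ⟨e, a⟩, by simp [e']⟩)
    fun v => b v _ (m v)
  rw [le_div_iff₀ (tot_pos h h2)]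
  refine hX.trans (le_csSup (((Set.finite_range fun X : Finset (Fin n) =>
    ∑ u ∈ X, ∑ v ∈ Xᶜ, w u v).subset ?_).bddAbove) ⟨X, rfl⟩)
  rintro _ ⟨X, rfl⟩
  exact ⟨X, rfl⟩

lemma bounds (ν : ℕ) (h : 4096 ≤ ν) : 1 / 256 * (ν : ℝ) ^ (-2 / 3 : ℝ) ≤ c ν - 1 / 4 ∧
    c ν - 1 / 4 ≤ 70000 * (ν : ℝ) ^ (-2 / 3 : ℝ) := by
  have p : (0 : ℝ) ≤ ν := Nat.cast_nonneg _
  let t := (ν : ℝ) ^ (1 / 3 : ℝ)
  have h3 : t ^ 3 = ν := by
    simp only [t]; rw [← Real.rpow_natCast, ← Real.rpow_mul p]; norm_num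
  have h2 : (ν : ℝ) ^ (-2 / 3 : ℝ) = (t ^ 2)⁻¹ := by
    simp only [t]; rw [← Real.rpow_natCast, ← Real.rpow_mul p, ← Real.rpow_neg p]; norm_num
  have ht : 16 ≤ t := by
    refine le_of_pow_le_pow_left₀ three_ne_zero (by positivity) ?_
    rw [h3]; exact_mod_cast h
  obtain ⟨w, w0, w1, w2⟩ := DiB.upper ν t ht h3
  have a : Adm ν w := by
    refine ⟨w0, fun v hv => ?_, ⟨List.finRange ν, List.nodup_finRange _, ?_, by simp⟩, ?_⟩
    · have : ∀ a b, Relation.TransGen (Arc w) a b → a < b := fun a b r => by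
        induction r with
        | single r => exact (w1 _ _).1 r
        | tail _ r ih => exact ih.trans ((w1 _ _).1 r)
      exact (this v v hv).false
    · exact ((List.pairwise_lt_finRange ν).imp fun r => (w1 _ _).2 r).isChain
    · rintro _ ⟨l, a, -, rfl⟩
      simpa using a.length_le_card
  have lo : ∀ r ∈ {r | ∃ (n : ℕ) (w : Fin n → Fin n → ℝ), Adm ν w ∧ r = mac w / ∑ u, ∑ v, w u v},
      1 / 4 + 1 / 256 / t ^ 2 ≤ r := by
    rintro _ ⟨n, w, a, rfl⟩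
    exact low a (by omega) t (by linarith) h3
  have a1 : 1 / 4 + 1 / 256 / t ^ 2 ≤ c ν := le_csInf ⟨_, ν, w, a, rfl⟩ lo
  have a2 : c ν ≤ 1 / 4 + 70000 / t ^ 2 := by
    refine (csInf_le ⟨_, lo⟩ ⟨ν, w, a, rfl⟩).trans ?_
    rw [div_le_iff₀ (tot_pos a (by omega))]
    refine csSup_le ⟨_, ∅, rfl⟩ ?_
    rintro _ ⟨X, rfl⟩
    exact w2 X
  rw [h2, ← div_eq_mul_inv, ← div_eq_mul_inv]
  constructor <;> linarith

lemma theta : (fun ν : ℕ => c ν - 1 / 4) =Θ[atTop] fun ν : ℕ => (ν : ℝ) ^ (-2 / 3 : ℝ) := by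
  refine ⟨IsBigO.of_bound 70000 ?_, IsBigO.of_bound 256 ?_⟩ <;>
    filter_upwards [eventually_ge_atTop 4096] with ν h <;>
    have := bounds ν h <;>
    have p : 0 ≤ (ν : ℝ) ^ (-2 / 3 : ℝ) := by positivity
  all_goals
    rw [Real.norm_of_nonneg p, Real.norm_of_nonneg (by linarith : 0 ≤ c ν - 1 / 4)]
    linarith

lemma bigO (a b : ℝ) : (fun ν : ℕ => (ν : ℝ) ^ a) =O[atTop] (fun ν : ℕ => (ν : ℝ) ^ b) ↔ a ≤ b := by
  constructor
  · intro h
    by_contra l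
    obtain ⟨C, hC⟩ := h.bound
    have := ((tendsto_rpow_atTop (sub_pos.2 (not_le.1 l))).comp
      tendsto_natCast_atTop_atTop).eventually_gt_atTop C
    obtain ⟨ν, h1, h2, h3⟩ := (hC.and (this.and (eventually_gt_atTop 0))).exists
    have p : (0 : ℝ) < ν := by exact_mod_cast h3
    rw [Real.norm_of_nonneg (by positivity), Real.norm_of_nonneg (by positivity)] at h1
    simp only [Function.comp, Real.rpow_sub p] at h2
    rw [lt_div_iff₀ (by positivity)] at h2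
    linarith
  · intro h
    refine IsBigO.of_bound 1 ?_
    filter_upwards [eventually_ge_atTop 1] with ν h1
    rw [Real.norm_of_nonneg (by positivity), Real.norm_of_nonneg (by positivity), one_mul]
    exact Real.rpow_le_rpow_of_exponent_le (by exact_mod_cast h1) h

theorem result : ((fun ν : ℕ => c ν - 1 / 4) =Θ[atTop] fun ν : ℕ => (ν : ℝ) ^ (-2 / 3 : ℝ)) ∧
    alphaL = -2 / 3 ∧ alphaU = -2 / 3 := by
  refine ⟨theta, ?_, ?_⟩
  · simp only [alphaL, theta.isBigO_congr_right, bigO]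
    exact csSup_Iic
  · simp only [alphaU, theta.isBigO_congr_left, bigO]
    exact csInf_Ici

end Pool.Agent.Results.MP_0d4af9_co.Exponent
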